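import Pool.Agent.Q5.RG.Pub

/-! Beilinson's conjecture for the base changes `X_F` of a projective variety `X` over a
number field `K`: families of finite extensions `F` of `K` which suffice for `X` itself. No continuation
is presupposed. -/

namespace Pool.Agent.Results.MP_4a177b_nt.FamiliesOfFields

open NumberField IsDedekindDomain Polynomial Pool.Agent.Q5.RG Pool.Agent.Q5.VL

/-- the regulator of `X_F` is an isomorphism, and for all choices of the bad Euler factors the `t`-th
power of `L(H^i(X_F), s)` has a meromorphic continuation to `Ω`; its order at `s = m` is `t` times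
the dimension of motivic cohomology, and its leading coefficient a rational multiple of the `t`-th
power of the determinant of the regulator. -/
def BeilinsonPower {K : Type} [Field K] [NumberField K] {n : ℕ}
    (X : Set (MvPolynomial (Fin n) (𝓞 K))) (d i N : ℕ) (m : ℤ) (Ω : Set ℂ)
    (M : Spaces ℚ ℝ Gal(AlgebraicClosure K/K)) (F : Type) [Field F] [NumberField F] [Algebra K F]
    (t : ℕ) : Prop :=
  (∃ p c, M.Reg F p c) ∧
    ∀ B : HeightOneSpectrum (𝓞 F) → ℚ[X], Sys X d i N m F B → M.Pow m Ω F B t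

/-- families of number fields which are closed under isomorphisms and composita, such that for all
automorphisms `σ` and primes `p` some member has a number of embeddings fixed by `σ` that is prime
to `p` -/
def IsExact {K : Type} [Field K] (𝓕 : Set (IntermediateField K (AlgebraicClosure K))) : Prop :=
  (∀ F ∈ 𝓕, FiniteDimensional K F) ∧
  (∀ F ∈ 𝓕, ∀ F' : IntermediateField K (AlgebraicClosure K), Nonempty (F ≃ₐ[K] F') → F' ∈ 𝓕) ∧
  (∀ F ∈ 𝓕, ∀ F' ∈ 𝓕, F ⊔ F' ∈ 𝓕) ∧
  ∀ (σ : Gal(AlgebraicClosure K/K)) (p : ℕ), p.Prime → ∃ F ∈ 𝓕, ¬ p ∣ fixe F σ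

/-- families of number fields which are closed under finite extensions, such that every automorphism
fixes the elements of some member -/
def IsWide {K : Type} [Field K] (𝓕 : Set (IntermediateField K (AlgebraicClosure K))) : Prop :=
  (∀ F ∈ 𝓕, FiniteDimensional K F) ∧
  (∀ F ∈ 𝓕, ∀ F' : IntermediateField K (AlgebraicClosure K), FiniteDimensional K F' → F ≤ F' →
    F' ∈ 𝓕) ∧
  ∀ σ : Gal(AlgebraicClosure K/K), ∃ F ∈ 𝓕, ∀ x ∈ F, σ x = x

/-- the setting: the spaces `M` of the variety, a domain, and Euler polynomials over all number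
fields (they exist by Deligne's theorem); no continuation is assumed -/
structure Setting {K : Type} [Field K] [NumberField K] {n : ℕ}
    (X : Set (MvPolynomial (Fin n) (𝓞 K))) (d i N : ℕ) (m : ℤ) (Ω : Set ℂ)
    (M : Spaces ℚ ℝ Gal(AlgebraicClosure K/K)) : Prop where
  le : i ≤ 2 * d
  dom : IsDom Ω (m : ℂ)
  good : M.Good
  sys : ∀ (F : Type) [Field F] [NumberField F] [Algebra K F], ∃ B, Sys X d i N m F B

theorem result (K : Type) [Field K] [NumberField K]
    (𝓕 : Set (IntermediateField K (AlgebraicClosure K))) :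
    -- (1) exact families
    (IsExact 𝓕 →
      ∀ (n : ℕ) (X : Set (MvPolynomial (Fin n) (𝓞 K))) (d i N : ℕ) (m : ℤ) (Ω : Set ℂ)
        (M : Spaces ℚ ℝ Gal(AlgebraicClosure K/K)), Setting X d i N m Ω M →
      (∀ F ∈ 𝓕, ∀ [NumberField F], BeilinsonPower X d i N m Ω M F 1) →
      BeilinsonPower X d i N m Ω M K 1) ∧
    -- (2) wide families
    (IsWide 𝓕 → ∃ e : ℕ, 0 < e ∧
      ∀ (n : ℕ) (X : Set (MvPolynomial (Fin n) (𝓞 K))) (d i N : ℕ) (m : ℤ) (Ω : Set ℂ)
        (M : Spaces ℚ ℝ Gal(AlgebraicClosure K/K)), Setting X d i N m Ω M →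
      (∀ F ∈ 𝓕, ∀ [NumberField F], BeilinsonPower X d i N m Ω M F 1) →
      BeilinsonPower X d i N m Ω M K e) := by
  refine ⟨fun hF n X d i N m Ω M hS h => ?_, fun hF => ?_⟩
  · have hF' : Pool.Agent.Q5.SO.Exact 𝓕 := ⟨hF.1, hF.2.1, hF.2.2.1, fun σ p hp => by
      obtain ⟨F, hFm, hnd⟩ := hF.2.2.2 σ p hp
      have hfd := hF.1 F hFm
      have hnf : NumberField F := NumberField.of_module_finite K F
      exact ⟨F, hFm, by rwa [← fixe_eq]⟩⟩
    exact (Spaces.conj_iff hS.good.comp.onto).1 (conjQ_exact hS.le hS.dom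
      (Spaces.goodM hS.good) hS.sys hF' fun F hFm _ =>
      (Spaces.conj_iff hS.good.comp.onto).2 (h F hFm))
  · have hF' : Pool.Agent.Q5.HR.Wide 𝓕 := hF
    obtain ⟨e, he, hlaw⟩ := conjQ_wide' hF'
    refine ⟨e, he, fun n X d i N m Ω M hS h => ?_⟩
    obtain ⟨h1, h2⟩ := hlaw hS.le hS.dom (Spaces.goodM hS.good) hS.sys fun F hFm _ =>
      (Spaces.conj_iff hS.good.comp.onto).2 (h F hFm)
    have h3 := (Spaces.ex_iff hS.good.comp.onto).2 h1
    exact ⟨h3, fun B hB => (Spaces.pow_iff hS.good.comp.onto h3).2 (h2 B hB)⟩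

end Pool.Agent.Results.MP_4a177b_nt.FamiliesOfFields
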